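import Pool.Agent.H20.SM.Targets
import Pool.Agent.H49.CA.CFX

/-!
# Row CFXq of the board sm_modules (MP_347b49_nt): the number of the characters fixed by an
automorphism, squarefree moduli
-/

set_option autoImplicit false

open NumberField Complex Filter Topology

namespace Pool.Agent.H99.SM

open Pool.Agent.H37.CA Pool.Agent.H37.CV Pool.Agent.H28.RC Pool.Agent.H25 Pool.Agent.H25.HK
open Pool.Agent.H49.CA (hC val_eq lf mk_lf sR sR_apply sX sX_val cj_span dX dX_apply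
  index_range_eq card_dual_quot fib_card)
open Pool.Agent.H20.SM

variable {F : Type} [Field F] [NumberField F]

private theorem cfxq_top (q : ℕ) (hq : 2 ≤ q) : qi F q ≠ ⊤ := by
  intro h
  rw [qi, Ideal.span_singleton_eq_top] at h
  have h1 : Ideal.absNorm (Ideal.span {(q : 𝓞 F)}) = 1 := by
    rw [Ideal.absNorm_eq_one_iff, Ideal.span_singleton_eq_top]
    exact h
  rw [Ideal.absNorm_span_natCast] at h1
  have h2 : Module.finrank ℤ (𝓞 F) ≠ 0 := by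
    rw [RingOfIntegers.rank]
    exact Module.finrank_pos.ne'
  exact absurd h1 (Nat.one_lt_pow h2 (by omega)).ne'

private theorem cfxq_bot (q : ℕ) (hq : q ≠ 0) : qi F q ≠ ⊥ := by
  rw [qi, Ne, Ideal.span_singleton_eq_bot]
  exact_mod_cast hq

/-- the fixed characters come from the quotient -/
private theorem cfxq_quot (q : ℕ) (hm : qi F q ≠ ⊤) (σ : F ≃ₐ[ℚ] F) {ψ : Ideal (𝓞 F) → ℂ}
    (hψ : ψ ∈ Ch (qi F q) (qi F q)) (hσ : ∀ I : Ideal (𝓞 F), ψ (cj σ I) = ψ I) :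
    ∃ θ : ((𝓞 F ⧸ qi F q)ˣ ⧸ (dX q σ).range) →* ℂˣ,
      ∀ x : (𝓞 F ⧸ qi F q)ˣ, ((θ (QuotientGroup.mk x) : ℂˣ) : ℂ) =
        ψ (Ideal.span {lf (qi F q) x}) := by
  let χ : (𝓞 F ⧸ qi F q)ˣ →* ℂˣ := (hC hm hψ).toHomUnits
  have hχ : ∀ x, ((χ x : ℂˣ) : ℂ) = ψ (Ideal.span {lf (qi F q) x}) := fun x => rfl
  have hker : (dX q σ).range ≤ χ.ker := by
    rintro _ ⟨x, rfl⟩
    rw [MonoidHom.mem_ker, dX_apply, map_div, div_eq_one]
    refine Units.ext ?_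
    rw [hχ, hχ, ← val_eq hm hψ (sX q σ x) (sR σ (lf (qi F q) x)) (sX_val q σ x).symm,
      ← cj_span, hσ]
  refine ⟨QuotientGroup.lift (dX q σ).range χ hker, fun x => ?_⟩
  rw [QuotientGroup.lift_mk, hχ]

/-- the number of the fixed units -/
private theorem cfxq_ker (q : ℕ) (hb : qi F q ≠ ⊥) (σ : F ≃ₐ[ℚ] F) :
    Nat.card (dX q σ).ker ≤ {y : 𝓞 F ⧸ qi F q | ∃ x : 𝓞 F, Ideal.Quotient.mk (qi F q) x = y ∧
      σ • x - x ∈ qi F q}.ncard := by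
  have : Finite (𝓞 F ⧸ qi F q) := Ideal.finiteQuotientOfFreeOfNeBot _ hb
  have h1 : Nat.card (dX q σ).ker =
      ((fun x : (𝓞 F ⧸ qi F q)ˣ => (x : 𝓞 F ⧸ qi F q)) '' ((dX q σ).ker : Set _)).ncard := by
    rw [Set.ncard_image_of_injective _ Units.val_injective]
    rfl
  rw [h1]
  refine Set.ncard_le_ncard ?_ (Set.toFinite _)
  rintro _ ⟨x, hx, rfl⟩
  refine ⟨lf (qi F q) x, mk_lf _ x, ?_⟩
  have h2 : dX q σ x = 1 := hx
  rw [dX_apply, div_eq_one] at h2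
  rw [← Ideal.Quotient.eq, ← sR_apply, ← sX_val, h2, mk_lf]

theorem pf_CFXq (hFXPq : T_FXPq) : T_CFXq := by
  classical
  intro F _ _ _ _
  have : Fintype (F ≃ₐ[ℚ] F) := Fintype.ofFinite _
  set n := Fintype.card (ClassGroup (𝓞 F)) with hn
  set c1 : ℕ := ∑ σ : F ≃ₐ[ℚ] F, {ψ | ψ ∈ Ch (qi F 1) (qi F 1) ∧
    ∀ I : Ideal (𝓞 F), ψ (cj σ I) = ψ I}.ncard with hc1
  refine ⟨((n ^ n + c1 : ℕ) : ℝ), fun q hq σ hσ => ?_⟩
  have hqz : q ≠ 0 := hq.1.ne_zero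
  have hq0 : (0 : ℝ) < q := by exact_mod_cast Nat.pos_of_ne_zero hqz
  have hq1 : (1 : ℝ) ≤ q := by exact_mod_cast Nat.pos_of_ne_zero hqz
  have hpow : (1 : ℝ) ≤ (q : ℝ) ^ ((Module.finrank ℚ F : ℝ) / 2) :=
    Real.one_le_rpow hq1 (by positivity)
  rcases eq_or_ne q 1 with rfl | hqn
  · have h1 : {ψ | ψ ∈ Ch (qi F 1) (qi F 1) ∧
        ∀ I : Ideal (𝓞 F), ψ (cj σ I) = ψ I}.ncard ≤ c1 :=
      Finset.single_le_sum (f := fun σ : F ≃ₐ[ℚ] F => {ψ | ψ ∈ Ch (qi F 1) (qi F 1) ∧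
        ∀ I : Ideal (𝓞 F), ψ (cj σ I) = ψ I}.ncard) (fun _ _ => Nat.zero_le _)
        (Finset.mem_univ σ)
    calc (({ψ | ψ ∈ Ch (qi F 1) (qi F 1) ∧
        ∀ I : Ideal (𝓞 F), ψ (cj σ I) = ψ I}.ncard : ℕ) : ℝ) ≤ ((n ^ n + c1 : ℕ) : ℝ) := by
          exact_mod_cast h1.trans (Nat.le_add_left _ _)
      _ ≤ _ := le_mul_of_one_le_right (by positivity) hpow
  have hq2 : 2 ≤ q := by omega
  set A := {ψ | ψ ∈ Ch (qi F q) (qi F q) ∧ ∀ I : Ideal (𝓞 F), ψ (cj σ I) = ψ I} with hA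
  have hm := cfxq_top (F := F) q hq2
  have hb := cfxq_bot (F := F) q hqz
  by_cases hfin : A.Finite
  swap
  · rw [Set.Infinite.ncard hfin, Nat.cast_zero]
    positivity
  have : Finite (𝓞 F ⧸ qi F q) := Ideal.finiteQuotientOfFreeOfNeBot _ hb
  have hS := hFXPq F q hq σ hσ
  set S := {y : 𝓞 F ⧸ qi F q | ∃ x : 𝓞 F, Ideal.Quotient.mk (qi F q) x = y ∧
      σ • x - x ∈ qi F q} with hSdef
  let f : (Ideal (𝓞 F) → ℂ) → ((𝓞 F ⧸ qi F q)ˣ → ℂ) := fun ψ x =>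
    ψ (Ideal.span {lf (qi F q) x})
  have h1 : hfin.toFinset.card ≤ n ^ n * (hfin.toFinset.image f).card := by
    refine Finset.card_le_mul_card_image _ _ fun g _ => ?_
    refine fib_card (qi F q) hm _ (fun ψ hψ => ?_) g (fun ψ hψ x => ?_)
    · exact (hfin.mem_toFinset.1 (Finset.mem_filter.1 hψ).1).1
    · exact congrFun (Finset.mem_filter.1 hψ).2 x
  obtain ⟨hfinQ, hcardQ⟩ := card_dual_quot (𝓞 F ⧸ qi F q)ˣ (dX q σ).range
  have h2 : (hfin.toFinset.image f).card ≤ Nat.card (dX q σ).ker := by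
    have h3 : ((hfin.toFinset.image f : Finset _) : Set ((𝓞 F ⧸ qi F q)ˣ → ℂ)) ⊆
        Set.range (fun (θ : ((𝓞 F ⧸ qi F q)ˣ ⧸ (dX q σ).range) →* ℂˣ) (x : (𝓞 F ⧸ qi F q)ˣ) =>
          ((θ (QuotientGroup.mk x) : ℂˣ) : ℂ)) := by
      intro g hg
      obtain ⟨ψ, hψ, rfl⟩ := Finset.mem_image.1 (Finset.mem_coe.1 hg)
      obtain ⟨h4, h5⟩ := hfin.mem_toFinset.1 hψ
      obtain ⟨θ, hθ⟩ := cfxq_quot q hm σ h4 h5
      exact ⟨θ, funext hθ⟩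
    rw [← Set.ncard_coe_finset]
    refine (Set.ncard_le_ncard h3 (Set.finite_range _)).trans ?_
    rw [← Set.image_univ]
    refine (Set.ncard_image_le (Set.finite_univ)).trans ?_
    rw [Set.ncard_univ, hcardQ, index_range_eq]
  have h3 := cfxq_ker q hb σ
  have h4 : (S.ncard : ℝ) ≤ (q : ℝ) ^ ((Module.finrank ℚ F : ℝ) / 2) := by
    have h5 : (S.ncard : ℝ) ^ 2 ≤ ((q : ℝ) ^ ((Module.finrank ℚ F : ℝ) / 2)) ^ 2 := by
      rw [← Real.rpow_natCast ((q : ℝ) ^ ((Module.finrank ℚ F : ℝ) / 2)) 2,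
        ← Real.rpow_mul hq0.le]
      have h6 : (Module.finrank ℚ F : ℝ) / 2 * ((2 : ℕ) : ℝ) = (Module.finrank ℚ F : ℝ) := by
        push_cast
        ring
      rw [h6, Real.rpow_natCast]
      exact_mod_cast hS
    exact (pow_le_pow_iff_left₀ (by positivity) (by positivity) two_ne_zero).1 h5
  have h5 : A.ncard ≤ n ^ n * S.ncard := by
    rw [Set.ncard_eq_toFinset_card _ hfin]
    exact h1.trans (Nat.mul_le_mul_left _ (h2.trans h3))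
  calc (A.ncard : ℝ) ≤ ((n ^ n * S.ncard : ℕ) : ℝ) := by exact_mod_cast h5
    _ = ((n ^ n : ℕ) : ℝ) * (S.ncard : ℝ) := by push_cast; ring
    _ ≤ ((n ^ n + c1 : ℕ) : ℝ) * (q : ℝ) ^ ((Module.finrank ℚ F : ℝ) / 2) := by
        refine mul_le_mul ?_ h4 (by positivity) (by positivity)
        exact_mod_cast Nat.le_add_right _ _

end Pool.Agent.H99.SM
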