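import Pool.Agent.H20.SM.Targets
import Pool.Agent.H37.CV.All

/-!
# Row FMq of the board sm_modules (MP_347b49_nt): the first moment, special moduli
-/

set_option autoImplicit false

open NumberField NumberField.InfinitePlace Complex Filter Topology MeasureTheory

namespace Pool.Agent.H99.SM

open Pool.Agent.H28.RC Pool.Agent.H25.HK Pool.Agent.H37.CV Pool.Agent.H20.SM

variable {K : Type} [Field K] [NumberField K]

private theorem fmq_top (q : ℕ) (hq : 2 ≤ q) : qi K q ≠ ⊤ := by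
  intro h
  rw [qi, Ideal.span_singleton_eq_top] at h
  have h1 : Ideal.absNorm (Ideal.span {(q : 𝓞 K)}) = 1 := by
    rw [Ideal.absNorm_eq_one_iff, Ideal.span_singleton_eq_top]
    exact h
  rw [Ideal.absNorm_span_natCast] at h1
  have h2 : Module.finrank ℤ (𝓞 K) ≠ 0 := by
    rw [RingOfIntegers.rank]
    exact Module.finrank_pos.ne'
  exact absurd h1 (Nat.one_lt_pow h2 (by omega)).ne'

private theorem fmq_bot (q : ℕ) (hq : q ≠ 0) : qi K q ≠ ⊥ := by
  rw [qi, Ne, Ideal.span_singleton_eq_bot]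
  exact_mod_cast hq

private theorem fmq_nm (q : ℕ) : nm (qi K q) = (q : ℝ) ^ Module.finrank ℚ K := by
  rw [nm, qi, Ideal.absNorm_span_natCast, RingOfIntegers.rank]
  push_cast
  rfl

private theorem fmq_cnd (q : ℕ) : nm (qi K q) ≤ cnd K (qi K q) := by
  rw [cnd]
  have h1 : (1 : ℝ) ≤ |(discr K : ℝ)| := by
    have : (1 : ℤ) ≤ |discr K| := Int.one_le_abs (discr_ne_zero K)
    exact_mod_cast this
  exact le_mul_of_one_le_left (by rw [nm]; positivity) h1

/-- the sum over the proper divisors -/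
private theorem fmq_sum (T : Finset (Ideal (𝓞 K))) (q n : ℕ) (P : Finset ℕ)
    (hP : ∀ d ∈ T, Pd q d ⊆ P) (hc : ∀ R : Finset ℕ, (T.filter fun d => Pd q d = R).card ≤
      2 ^ (n * R.card)) (hne : ∀ d ∈ T, d ≠ qi K q → (Pd q d).Nonempty) :
    ∑ d ∈ T.filter (fun d => d ≠ qi K q), pd q d ^ (-(3 / 4) : ℝ) ≤
      ∑ S ∈ P.powerset.erase ∅, (2 : ℝ) ^ (n * S.card) * (∏ p ∈ S, (p : ℝ)) ^ (-(3 / 4) : ℝ) := by
  classical
  have hmap : ∀ d ∈ T.filter (fun d => d ≠ qi K q), Pd q d ∈ P.powerset.erase ∅ := by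
    intro d hd
    obtain ⟨h1, h2⟩ := Finset.mem_filter.1 hd
    rw [Finset.mem_erase, Finset.mem_powerset]
    exact ⟨(hne d h1 h2).ne_empty, hP d h1⟩
  rw [← Finset.sum_fiberwise_of_maps_to hmap]
  refine Finset.sum_le_sum fun S hS => ?_
  have h1 : ∑ d ∈ (T.filter (fun d => d ≠ qi K q)).filter (fun d => Pd q d = S),
      pd q d ^ (-(3 / 4) : ℝ) =
      (((T.filter (fun d => d ≠ qi K q)).filter (fun d => Pd q d = S)).card : ℝ) *
        (∏ p ∈ S, (p : ℝ)) ^ (-(3 / 4) : ℝ) := by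
    rw [← nsmul_eq_mul, ← Finset.sum_const]
    refine Finset.sum_congr rfl fun d hd => ?_
    rw [pd, (Finset.mem_filter.1 hd).2]
  rw [h1]
  refine mul_le_mul_of_nonneg_right ?_ (Real.rpow_nonneg (by positivity) _)
  have h2 : ((T.filter (fun d => d ≠ qi K q)).filter (fun d => Pd q d = S)).card ≤
      (T.filter (fun d => Pd q d = S)).card :=
    Finset.card_le_card (Finset.filter_subset_filter _ (Finset.filter_subset _ _))
  exact_mod_cast h2.trans (hc S)

omit [NumberField K] in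
/-- the number of the divisors -/
private theorem fmq_card (T : Finset (Ideal (𝓞 K))) (q n : ℕ) (P : Finset ℕ)
    (hP : ∀ d ∈ T, Pd q d ⊆ P) (hc : ∀ R : Finset ℕ, (T.filter fun d => Pd q d = R).card ≤
      2 ^ (n * R.card)) : (T.card : ℝ) ≤ 2 ^ ((n + 1) * P.card) := by
  classical
  have hmap : ∀ d ∈ T, Pd q d ∈ P.powerset := fun d hd => Finset.mem_powerset.2 (hP d hd)
  have h1 := Finset.card_eq_sum_card_fiberwise hmap
  have h2 : T.card ≤ ∑ _S ∈ P.powerset, 2 ^ (n * P.card) := by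
    rw [h1]
    refine Finset.sum_le_sum fun S hS => (hc S).trans ?_
    exact Nat.pow_le_pow_right (by norm_num)
      (Nat.mul_le_mul_left _ (Finset.card_le_card (Finset.mem_powerset.1 hS)))
  rw [Finset.sum_const, Finset.card_powerset, smul_eq_mul, ← pow_add] at h2
  have h3 : P.card + n * P.card = (n + 1) * P.card := by ring
  rw [h3] at h2
  exact_mod_cast h2

/-- the size of the error terms -/
private theorem fmq_num (n w A : ℕ) (x v lq : ℝ) (hx0 : 0 < x) (hnR : (0 : ℝ) < n)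
    (hv : 0 < v) (hi : (w : ℝ) ≤ 2 * Real.log x ^ A) (p1 : Real.log x ^ (A + 1) / 2 ≤ lq)
    (hlog2 : 64 * (2 * (n + 1) * Real.log 2 + 1) / n ≤ Real.log x)
    (hlogA : Real.log x ≤ Real.log x ^ A) (p4 : Real.log v = n * lq) :
    (2 : ℝ) ^ ((n + 1) * w) * v ^ (-(1 / 32) : ℝ) ≤ x ^ (-(1) : ℝ) := by
  have hl2 : 0 < Real.log 2 := Real.log_pos (by norm_num)
  have hlx : 0 ≤ Real.log x := le_trans (by positivity) hlog2
  rw [← Real.rpow_natCast, Real.rpow_def_of_pos (by norm_num : (0 : ℝ) < 2),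
    Real.rpow_def_of_pos hv, Real.rpow_def_of_pos hx0, ← Real.exp_add, p4]
  refine Real.exp_le_exp.2 ?_
  push_cast
  have h6 : Real.log 2 * (((n : ℝ) + 1) * (w : ℝ)) ≤
      Real.log 2 * (((n : ℝ) + 1) * (2 * Real.log x ^ A)) :=
    mul_le_mul_of_nonneg_left (mul_le_mul_of_nonneg_left hi (by positivity)) hl2.le
  have h7 : (n : ℝ) * (Real.log x ^ (A + 1) / 2) ≤ n * lq :=
    mul_le_mul_of_nonneg_left p1 hnR.le
  have h8 : 64 * (2 * (n + 1) * Real.log 2 + 1) ≤ Real.log x * n :=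
    (div_le_iff₀ hnR).1 hlog2
  have h9 : 64 * (2 * (n + 1) * Real.log 2 + 1) * Real.log x ^ A ≤
      (Real.log x * n) * Real.log x ^ A :=
    mul_le_mul_of_nonneg_right h8 (by positivity)
  have h10 : (Real.log x * n) * Real.log x ^ A = n * Real.log x ^ (A + 1) := by ring
  rw [h10] at h9
  linarith [h6, h7, h9, hlogA]

private theorem fmq_pow (Q : ℝ) (hQ0 : 0 < Q) : (Q / Q ^ (9 / 8 : ℝ)) ^ 16 = Q⁻¹ * Q⁻¹ := by
  have h5 : Q / Q ^ (9 / 8 : ℝ) = Q ^ (-(1 / 8) : ℝ) := by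
    nth_rewrite 1 [← Real.rpow_one Q]
    rw [← Real.rpow_sub hQ0]
    norm_num
  rw [h5, ← Real.rpow_natCast, ← Real.rpow_mul hQ0.le, ← Real.rpow_neg_one,
    ← Real.rpow_add hQ0]
  norm_num

open scoped Classical in
theorem pf_FMq (hIEq : T_IEq) (hNCR : T_NCR) (hPAR : T_PAR) (hSND : T_SND) (hFMOr : T_FMOr)
    (hF1q : T_F1q) (hPNC : T_PNC) : T_FMq := by
  intro F _ _ _ _ A ε₁ η hA hε0 hε1 hη
  set n : ℕ := Module.finrank ℚ F with hn
  have hn0 : 0 < n := Module.finrank_pos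
  have hnR : (0 : ℝ) < n := by exact_mod_cast hn0
  have hn1 : (1 : ℝ) ≤ n := by exact_mod_cast hn0
  set κ : ℝ := η / 4 with hκ
  have hκ0 : 0 < κ := by positivity
  obtain ⟨C₁, hC1⟩ := a_AF1 F 16 (by norm_num)
  obtain ⟨C₂, -, hC2, -⟩ := a_GU F
  obtain ⟨C₀, E₀, -, -, hN0⟩ := hNCR F
  obtain ⟨x₁, hx1⟩ := hF1q F A ε₁ κ hA hε0 hε1 hκ0
  obtain ⟨x₂, hx2⟩ := hPAR F A
  obtain ⟨x₃, hx3⟩ := hSND n A
  obtain ⟨x₄, hx4⟩ := hPNC F A 1 one_pos
  obtain ⟨x₅, hx5⟩ := hN0 A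
  have e1 : Tendsto (fun x : ℝ => x ^ (-(1 / 8) : ℝ)) atTop (𝓝 0) :=
    tendsto_rpow_neg_atTop (by norm_num)
  have e2 : Tendsto (fun x : ℝ => x ^ (-(1) : ℝ)) atTop (𝓝 0) :=
    tendsto_rpow_neg_atTop (by norm_num)
  have e3 : Tendsto (fun x : ℝ => (2 * (|C₁| * |C₂|)) * x ^ (-(1 / 2) : ℝ)) atTop (𝓝 0) := by
    have := (tendsto_rpow_neg_atTop (show (0 : ℝ) < 1 / 2 by norm_num)).const_mul
      (2 * (|C₁| * |C₂|))
    rwa [mul_zero] at this
  have e4 := Real.tendsto_log_atTop.eventually_ge_atTop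
    (max 1 (64 * (2 * (n + 1) * Real.log 2 + 1) / n))
  obtain ⟨x₆, hx6⟩ := eventually_atTop.1
    ((e1.eventually (gt_mem_nhds hκ0)).and ((e2.eventually (gt_mem_nhds hκ0)).and
      ((e3.eventually (gt_mem_nhds hκ0)).and (e4.and (eventually_ge_atTop (2 : ℝ))))))
  refine ⟨max x₁ (max x₂ (max x₃ (max x₄ (max x₅ x₆)))), fun x q hx hSp => ?_⟩
  simp only [max_le_iff] at hx
  obtain ⟨ha1, ha2, ha3, ha4, ha5, ha6⟩ := hx
  obtain ⟨b1, b2, b3, b4, hx2'⟩ := hx6 x ha6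
  have hx0 : 0 < x := by linarith
  have hx1' : 1 ≤ x := by linarith
  have hlog1 : 1 ≤ Real.log x := (le_max_left _ _).trans b4
  have hlog2 : 64 * (2 * (n + 1) * Real.log 2 + 1) / n ≤ Real.log x := (le_max_right _ _).trans b4
  obtain ⟨p1, p2, -, p4⟩ := hx2 x q ha2 hSp
  have hlogA : Real.log x ≤ Real.log x ^ A := le_self_pow₀ hlog1 (by omega)
  have hlogA1 : Real.log x ≤ Real.log x ^ (A + 1) := le_self_pow₀ hlog1 (by omega)
  have hlq : Real.log x / 2 ≤ Real.log q := by linarith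
  have hqz : q ≠ 0 := hSp.sq.1.ne_zero
  have hq0 : (0 : ℝ) < q := by exact_mod_cast Nat.pos_of_ne_zero hqz
  have hq2 : 2 ≤ q := by
    have h1 : q ≠ 1 := by
      rintro rfl
      rw [Nat.cast_one, Real.log_one] at hlq
      linarith
    omega
  have hqx : x ^ (1 / 2 : ℝ) ≤ q := by
    rw [← Real.exp_log hq0, Real.rpow_def_of_pos hx0]
    exact Real.exp_le_exp.2 (by linarith)
  have hm := fmq_top (K := F) q hq2
  have hb := fmq_bot (K := F) q hqz
  set Q : ℝ := cnd F (qi F q) with hQ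
  have hnmq : (q : ℝ) ≤ nm (qi F q) := by
    rw [fmq_nm]
    exact le_self_pow₀ (by exact_mod_cast Nat.pos_of_ne_zero hqz) hn0.ne'
  have hnm1 : 1 ≤ nm (qi F q) := by
    have : (1 : ℝ) ≤ q := by exact_mod_cast Nat.pos_of_ne_zero hqz
    linarith
  have hQn : nm (qi F q) ≤ Q := fmq_cnd q
  have hQ0 : 0 < Q := by linarith
  set M : ℝ := Mo F ε₁ q with hM
  have hM1 : 1 ≤ M := Real.one_le_rpow hnm1 (by linarith)
  have hM2 : M * M ≤ Q := by
    refine le_trans ?_ hQn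
    rw [hM, Mo, ← Real.rpow_add (by linarith)]
    calc nm (qi F q) ^ (1 / 2 - ε₁ + (1 / 2 - ε₁)) ≤ nm (qi F q) ^ (1 : ℝ) :=
          Real.rpow_le_rpow_of_exponent_le hnm1 (by linarith)
      _ = nm (qi F q) := Real.rpow_one _
  obtain ⟨hfin, T, σ, hT0, hσ0, hT, hc, hsum⟩ := hIEq F q hSp.sq
  set N : ℝ := (nc (qi F q) (qi F q) : ℝ) with hN
  have hNpos : 0 < N := by
    rw [hN]
    exact_mod_cast (hx5 x q ha5 hSp).1
  set X : ℝ := Xr F q with hX
  have hX0 : 0 < X := by rw [hX, Xr]; exact Real.rpow_pos_of_pos hQ0 _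
  set L : Ideal (𝓞 F) → ℂ := fun d => ∑' m : {m : Ideal (𝓞 F) // (m, ⊤) ∈ CP (qi F q) d},
    lam X M m.1 * ((nm m.1 ^ (-(1 / 2) : ℝ) : ℝ) : ℂ) with hL
  obtain ⟨hL1, hL2⟩ := hx1 x q ha1 hSp
  have hcard : ((Pr F (qi F q)).ncard : ℝ) ≤ 2 * N := by
    have := (hx4 x q ha4 hSp).2
    linarith
  have hPsub : ∀ d ∈ T, Pd q d ⊆ q.primeFactors := fun d _ => Finset.filter_subset _ _
  have hcn : ∀ R : Finset ℕ, (T.filter fun d => Pd q d = R).card ≤ 2 ^ (n * R.card) :=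
    fun R => hc R
  have hne : ∀ d ∈ T, d ≠ qi F q → (Pd q d).Nonempty := fun d hd => (hT d hd).2.2
  -- the main part
  have hmain : (∑ᶠ χ ∈ Pr F (qi F q), A1 X χ.ψ * mol M χ.ψ) =
      ∑ d ∈ T, (σ d : ℂ) * (nc (qi F q) d * L d) := by
    rw [hsum (fun ψ => A1 X ψ * mol M ψ)]
    exact Finset.sum_congr rfl fun d hd => by
      rw [(hFMOr F (qi F q) d X M hb (hT d hd).1 hX0 hM1).2]
  have hdiff : ‖(∑ᶠ χ ∈ Pr F (qi F q), cval χ * mol M χ.ψ) -
      ∑ᶠ χ ∈ Pr F (qi F q), A1 X χ.ψ * mol M χ.ψ‖ ≤ κ * N := by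
    rw [finsum_mem_eq_finite_toFinset_sum _ hfin, finsum_mem_eq_finite_toFinset_sum _ hfin,
      ← Finset.sum_sub_distrib]
    have h2 : ∀ χ ∈ hfin.toFinset, ‖cval χ * mol M χ.ψ - A1 X χ.ψ * mol M χ.ψ‖ ≤
        (|C₁| * |C₂|) * Q⁻¹ := by
      intro χ hχ
      have hχ' : χ.f = qi F q := (Set.Finite.mem_toFinset hfin).1 hχ
      have hf : χ.f ≠ ⊤ := by rw [hχ']; exact hm
      obtain ⟨Z, Λ, ε', hZ, -⟩ := a_EN F χ hf
      have h3 := hC1 χ hf Z hZ X hX0
      rw [← cval_eq χ Z hZ, hχ', ← hQ] at h3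
      rw [← sub_mul, norm_mul]
      have h4 : (Q / X) ^ 16 = Q⁻¹ * Q⁻¹ := fmq_pow Q hQ0
      have h5 : ‖mol M χ.ψ‖ ≤ |C₂| * Q := by
        refine (norm_mol_le a_CX M hM1 χ).trans ?_
        have h6 : GS np (PM F M) M ≤ |C₂| * M := by
          refine (hC2 M hM1).trans ?_
          have h7 : 1 + Real.log M ≤ M := by
            have := Real.log_le_sub_one_of_pos (show 0 < M by linarith)
            linarith
          have h8 : 0 ≤ 1 + Real.log M := by
            have := Real.log_nonneg hM1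
            linarith
          exact mul_le_mul (le_abs_self _) h7 h8 (abs_nonneg _)
        calc M * GS np (PM F M) M ≤ M * (|C₂| * M) :=
              mul_le_mul_of_nonneg_left h6 (by linarith)
          _ = |C₂| * (M * M) := by ring
          _ ≤ |C₂| * Q := mul_le_mul_of_nonneg_left hM2 (abs_nonneg _)
      calc ‖cval χ - A1 X χ.ψ‖ * ‖mol M χ.ψ‖
          ≤ (|C₁| * (Q⁻¹ * Q⁻¹)) * (|C₂| * Q) := by
            refine mul_le_mul (h3.trans ?_) h5 (norm_nonneg _) (by positivity)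
            rw [h4]
            exact mul_le_mul_of_nonneg_right (le_abs_self _) (by positivity)
        _ = (|C₁| * |C₂|) * Q⁻¹ := by field_simp
    refine (norm_sum_le _ _).trans ((Finset.sum_le_sum h2).trans ?_)
    rw [Finset.sum_const, nsmul_eq_mul, ← Set.ncard_eq_toFinset_card _ hfin]
    have hQi : Q⁻¹ ≤ x ^ (-(1 / 2) : ℝ) := by
      rw [Real.rpow_neg hx0.le]
      exact inv_anti₀ (Real.rpow_pos_of_pos hx0 _) (hqx.trans (hnmq.trans hQn))
    calc ((Pr F (qi F q)).ncard : ℝ) * ((|C₁| * |C₂|) * Q⁻¹)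
        ≤ (2 * N) * ((|C₁| * |C₂|) * x ^ (-(1 / 2) : ℝ)) := by
          refine mul_le_mul hcard (mul_le_mul_of_nonneg_left hQi (by positivity))
            (by positivity) (by positivity)
      _ = (2 * (|C₁| * |C₂|)) * x ^ (-(1 / 2) : ℝ) * N := by ring
      _ ≤ κ * N := mul_le_mul_of_nonneg_right b3.le hNpos.le
  have hB : ‖(∑ d ∈ T, (σ d : ℂ) * (nc (qi F q) d * L d)) - N‖ ≤ κ * N + (κ * N + κ * N) := by
    have h1 : (∑ d ∈ T, (σ d : ℂ) * (nc (qi F q) d * L d)) - N =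
        (N : ℂ) * (L (qi F q) - 1) +
          ∑ d ∈ T.filter (fun d => d ≠ qi F q), (σ d : ℂ) * (nc (qi F q) d * L d) := by
      have h2 : T.filter (fun d => d ≠ qi F q) = T.erase (qi F q) := by
        ext d
        rw [Finset.mem_filter, Finset.mem_erase]
        tauto
      rw [h2, ← Finset.add_sum_erase T _ hT0, hσ0, hN]
      push_cast
      ring
    rw [h1]
    refine (norm_add_le _ _).trans (add_le_add ?_ ?_)
    · rw [norm_mul, Complex.norm_real, Real.norm_eq_abs, abs_of_pos hNpos, mul_comm]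
      exact mul_le_mul_of_nonneg_right hL1 hNpos.le
    · have h3 : ∀ d ∈ T.filter (fun d => d ≠ qi F q),
          ‖(σ d : ℂ) * (nc (qi F q) d * L d)‖ ≤
          N * (x ^ (1 / 8 : ℝ) * pd q d ^ (-(3 / 4) : ℝ)) +
            N * nm (qi F q) ^ (-(1 / 32) : ℝ) := by
        intro d hd
        obtain ⟨hd0, hdq⟩ := Finset.mem_filter.1 hd
        obtain ⟨hd1, hd2, hd3⟩ := hT d hd0
        rw [norm_mul, norm_mul, Complex.norm_natCast]
        have h4 := hL2 d hd1 hdq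
        have h5 : ‖((σ d : ℤ) : ℂ)‖ ≤ 1 := by
          rw [Complex.norm_intCast]
          exact_mod_cast hd2
        calc ‖((σ d : ℤ) : ℂ)‖ * ((nc (qi F q) d : ℝ) * ‖L d‖)
            ≤ 1 * ((nc (qi F q) d : ℝ) * ‖L d‖) :=
              mul_le_mul_of_nonneg_right h5 (by positivity)
          _ = (nc (qi F q) d : ℝ) * ‖L d‖ := one_mul _
          _ ≤ _ := h4.trans (le_of_eq (by ring))
      refine (norm_sum_le _ _).trans ((Finset.sum_le_sum h3).trans ?_)
      rw [Finset.sum_add_distrib, ← Finset.mul_sum, ← Finset.mul_sum, Finset.sum_const,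
        nsmul_eq_mul]
      refine add_le_add ?_ ?_
      · have h4 := (fmq_sum T q n q.primeFactors hPsub hcn hne).trans
          (hx3 x q.primeFactors ha3 hSp.low hSp.hi)
        calc N * (x ^ (1 / 8 : ℝ) *
              ∑ d ∈ T.filter (fun d => d ≠ qi F q), pd q d ^ (-(3 / 4) : ℝ))
            ≤ N * (x ^ (1 / 8 : ℝ) * x ^ (-(1 / 4) : ℝ)) := by gcongr
          _ = N * x ^ (-(1 / 8) : ℝ) := by
              rw [← Real.rpow_add hx0]
              norm_num
          _ ≤ N * κ := mul_le_mul_of_nonneg_left b1.le hNpos.le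
          _ = κ * N := mul_comm _ _
      · have h4 : ((T.filter (fun d => d ≠ qi F q)).card : ℝ) ≤
            2 ^ ((n + 1) * q.primeFactors.card) := by
          refine le_trans ?_ (fmq_card T q n q.primeFactors hPsub hcn)
          exact_mod_cast Finset.card_le_card (Finset.filter_subset _ _)
        have h5 : (2 : ℝ) ^ ((n + 1) * q.primeFactors.card) * nm (qi F q) ^ (-(1 / 32) : ℝ) ≤
            x ^ (-(1) : ℝ) := fmq_num n q.primeFactors.card A x (nm (qi F q)) (Real.log q) hx0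
          hnR (lt_of_lt_of_le one_pos hnm1) hSp.hi p1 hlog2 hlogA p4
        calc ((T.filter (fun d => d ≠ qi F q)).card : ℝ) *
              (N * nm (qi F q) ^ (-(1 / 32) : ℝ))
            ≤ 2 ^ ((n + 1) * q.primeFactors.card) * (N * nm (qi F q) ^ (-(1 / 32) : ℝ)) :=
              mul_le_mul_of_nonneg_right h4 (mul_nonneg hNpos.le
                (Real.rpow_nonneg (by linarith) _))
          _ = (2 ^ ((n + 1) * q.primeFactors.card) * nm (qi F q) ^ (-(1 / 32) : ℝ)) * N := by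
              ring
          _ ≤ x ^ (-(1) : ℝ) * N := mul_le_mul_of_nonneg_right h5 hNpos.le
          _ ≤ κ * N := mul_le_mul_of_nonneg_right b2.le hNpos.le
  have h2 : (∑ᶠ χ ∈ Pr F (qi F q), cval χ * mol M χ.ψ) - N =
      ((∑ᶠ χ ∈ Pr F (qi F q), cval χ * mol M χ.ψ) -
        ∑ᶠ χ ∈ Pr F (qi F q), A1 X χ.ψ * mol M χ.ψ) +
      ((∑ d ∈ T, (σ d : ℂ) * (nc (qi F q) d * L d)) - N) := by
    rw [hmain]
    ring
  have h3 : ((nc (qi F q) (qi F q) : ℕ) : ℂ) = (N : ℂ) := by rw [hN]; push_cast; rfl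
  rw [h3, h2]
  refine (norm_add_le _ _).trans ?_
  have h4 : η * N = 4 * (κ * N) := by rw [hκ]; ring
  linarith

end Pool.Agent.H99.SM
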